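import Mathlib

/-!
# Tightness of spaces of probability measures at Dirac measures: definitions
-/

open MeasureTheory Set
open scoped Cardinal

namespace Pool.Agent.PolT

/-- The point `y` of the topological space `Y` is a point of countable tightness: whenever `y` is
in the closure of a set `A`, it is in the closure of a countable subset of `A`. -/
def TightAt {Y : Type*} [TopologicalSpace Y] (y : Y) : Prop :=
  ∀ A : Set Y, y ∈ closure A → ∃ B ⊆ A, B.Countable ∧ y ∈ closure B

/-- `X` embeds in a `Σ`-product of real lines: there is a topological embedding `e` of `X` in a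
power `ℝ ^ Γ` such that every point of the image has only countably many nonzero coordinates.
A *Corson compactum* is a compact Hausdorff space with this property. -/
def CorsonEmb (X : Type) [TopologicalSpace X] : Prop :=
  ∃ (Γ : Type) (e : X → Γ → ℝ), Topology.IsEmbedding e ∧ ∀ x, {γ | e x γ ≠ 0}.Countable

/-- `P(X)`: the space of regular Borel probability measures on `X`, with the weak topology. -/
def P (X : Type) [TopologicalSpace X] [MeasurableSpace X] : Type :=
  {μ : ProbabilityMeasure X // (μ : Measure X).Regular}

instance (X : Type) [TopologicalSpace X] [MeasurableSpace X] [OpensMeasurableSpace X] :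
    TopologicalSpace (P X) :=
  inferInstanceAs (TopologicalSpace {μ : ProbabilityMeasure X // (μ : Measure X).Regular})

/-- Dirac measures are regular. -/
theorem dirac_regular {X : Type} [TopologicalSpace X] [T2Space X] [MeasurableSpace X]
    [BorelSpace X] (x : X) : (Measure.dirac x).Regular := by
  have h1 : ∀ s : Set X, MeasurableSet s → Measure.dirac x s = s.indicator 1 x :=
    fun s hs => Measure.dirac_apply' x hs
  refine { outerRegular := ?_, innerRegular := ?_ }
  · intro A hA r hr
    by_cases hx : x ∈ A
    · exact ⟨univ, subset_univ _, isOpen_univ, by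
        rw [h1 _ hA, indicator_of_mem hx] at hr
        rw [h1 _ MeasurableSet.univ, indicator_of_mem (mem_univ x)]
        exact hr⟩
    · exact ⟨{x}ᶜ, subset_compl_singleton_iff.mpr hx, isOpen_compl_singleton, by
        rw [h1 _ (isOpen_compl_singleton.measurableSet)]
        rw [h1 _ hA, indicator_of_notMem hx] at hr
        simpa using hr⟩
  · intro U hU r hr
    by_cases hx : x ∈ U
    · refine ⟨{x}, singleton_subset_iff.mpr hx, isCompact_singleton, ?_⟩
      rw [h1 _ hU.measurableSet, indicator_of_mem hx] at hr
      rw [h1 _ isClosed_singleton.measurableSet, indicator_of_mem (mem_singleton x)]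
      exact hr
    · rw [h1 _ hU.measurableSet, indicator_of_notMem hx] at hr
      exact absurd hr (by simp)

/-- The Dirac measure `δ_x`, as a point of `P(X)`. -/
noncomputable def dirac {X : Type} [TopologicalSpace X] [T2Space X] [MeasurableSpace X]
    [BorelSpace X] (x : X) : P X :=
  ⟨⟨Measure.dirac x, inferInstance⟩, dirac_regular x⟩

/-- Some compact Hausdorff space with a regular Borel probability measure is the union of at most
`ℵ₁` null sets. (Its negation is Martin's axiom `MA_{ω₁}` for measure algebras.) -/
def NullCover : Prop :=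
  ∃ (T : Type) (_ : TopologicalSpace T) (_ : CompactSpace T) (_ : T2Space T)
    (_ : MeasurableSpace T) (_ : BorelSpace T) (m : Measure T),
    IsProbabilityMeasure m ∧ m.Regular ∧
      ∃ 𝒩 : Set (Set T), #𝒩 ≤ ℵ₁ ∧ (∀ N ∈ 𝒩, m N = 0) ∧ ⋃₀ 𝒩 = univ

/-- General criterion for countable tightness: `y` has a neighbourhood base described by finitely
many of the real functions `φ k`, and every point has only countably many nonzero values. -/
theorem tightAt_of_functions {Y κ : Type*} [TopologicalSpace Y] (φ : κ → Y → ℝ)
    (hcount : ∀ z, {k | φ k z ≠ 0}.Countable) (y : Y) (hcont : ∀ k, ContinuousAt (φ k) y)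
    (hbase : ∀ U ∈ nhds y, ∃ (F : Finset κ) (ε : ℝ), 0 < ε ∧
      ∀ z, (∀ k ∈ F, |φ k z - φ k y| < ε) → z ∈ U) :
    TightAt y := by
  classical
  intro A hA
  -- approximation on finite sets of indices
  have happ : ∀ (F : Finset κ) (n : ℕ), ∃ z ∈ A, ∀ k ∈ F, |φ k z - φ k y| < 1 / ((n : ℝ) + 1) := by
    intro F n
    have hn : (0 : ℝ) < 1 / ((n : ℝ) + 1) := by positivity
    have hU : {z | ∀ k ∈ F, |φ k z - φ k y| < 1 / ((n : ℝ) + 1)} ∈ nhds y := by
      rw [Set.ofPred_forall]
      have : (⋂ i, {x | i ∈ F → |φ i x - φ i y| < 1 / ((n : ℝ) + 1)}) =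
          ⋂ i ∈ F, {x | |φ i x - φ i y| < 1 / ((n : ℝ) + 1)} := by
        ext x; simp
      rw [this, Filter.biInter_finset_mem]
      intro k _
      have := (hcont k)
      rw [ContinuousAt, Metric.tendsto_nhds] at this
      exact this _ hn
    obtain ⟨z, hz1, hz2⟩ := mem_closure_iff_nhds.mp hA _ hU
    exact ⟨z, hz2, hz1⟩
  choose w hwA hw using happ
  -- closing off
  let S : Y → Set κ := fun z => {k | φ k z ≠ 0}
  let T : Set κ → Set Y := fun D => ⋃ (F : Finset D), ⋃ n : ℕ,
    {w (F.map (Function.Embedding.subtype _)) n}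
  let nxt : Set κ → Set κ := fun D => D ∪ ⋃ z ∈ T D, S z
  have hTc : ∀ D : Set κ, D.Countable → (T D).Countable := by
    intro D hD
    have : Countable D := hD.to_subtype
    exact countable_iUnion fun F => countable_iUnion fun n => countable_singleton _
  have hnc : ∀ D : Set κ, D.Countable → (nxt D).Countable := by
    intro D hD
    exact hD.union ((hTc D hD).biUnion fun z _ => hcount z)
  let D : ℕ → Set κ := fun n => Nat.rec (motive := fun _ => Set κ) (S y) (fun _ E => nxt E) n
  have hD0 : D 0 = S y := rfl
  have hDs : ∀ n, D (n + 1) = nxt (D n) := fun n => rfl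
  have hDc : ∀ n, (D n).Countable := by
    intro n
    induction n with
    | zero => exact hcount y
    | succ n ih => rw [hDs]; exact hnc _ ih
  have hmono : Monotone D := monotone_nat_of_le_succ fun n => by
    rw [hDs]; exact subset_union_left
  refine ⟨⋃ n, T (D n), ?_, countable_iUnion fun n => hTc _ (hDc n), ?_⟩
  · refine iUnion_subset fun n => iUnion_subset fun F => iUnion_subset fun k => ?_
    exact singleton_subset_iff.mpr (hwA _ _)
  · rw [mem_closure_iff_nhds]
    intro U hU
    obtain ⟨F, ε, hε, hF⟩ := hbase U hU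
    obtain ⟨n, hn⟩ := exists_nat_one_div_lt hε
    let G : Finset κ := @Finset.filter κ (fun k : κ => ∃ m : ℕ, k ∈ D m) (Classical.decPred _) F
    have hT : ∀ (m : ℕ), (G : Set κ) ⊆ D m → w G n ∈ T (D m) := by
      intro m hm
      refine mem_iUnion.mpr ⟨G.subtype (· ∈ D m), mem_iUnion.mpr ⟨n, ?_⟩⟩
      rw [Finset.subtype_map_of_mem (fun x hx => hm hx)]
      exact mem_singleton _
    -- a common stage
    have hm : ∃ m, (G : Set κ) ⊆ D m := by
      have : ∀ k ∈ G, ∃ m, k ∈ D m := fun k hk => (Finset.mem_filter.mp hk).2
      choose! g hg using this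
      exact ⟨G.sup g, fun k hk => hmono (Finset.le_sup hk) (hg k hk)⟩
    obtain ⟨m, hm⟩ := hm
    refine ⟨w G n, hF _ ?_, ?_⟩
    · intro k hk
      by_cases hkD : (∃ j, k ∈ D j)
      · exact (hw G n k (Finset.mem_filter.mpr ⟨hk, hkD⟩)).trans hn
      · have h1 : φ k y = 0 := by
          by_contra h
          exact hkD ⟨0, h⟩
        have h2 : φ k (w G n) = 0 := by
          by_contra h
          refine hkD ⟨m + 1, ?_⟩
          rw [hDs]
          refine Or.inr ?_
          exact mem_biUnion (x := w G n) (hT m hm) h
        rw [h1, h2]; simpa using hε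
    · exact mem_iUnion.mpr ⟨m, hT m hm⟩

/-- A space whose topology is induced by a map to a power of the real line, with countable
supports, has countable tightness. -/
theorem tightAt_of_inducing {Y κ : Type*} [TopologicalSpace Y] (e : Y → κ → ℝ)
    (he : Topology.IsInducing e) (hc : ∀ z, {k | e z k ≠ 0}.Countable) (y : Y) : TightAt y := by
  refine tightAt_of_functions (fun γ x => e x γ) hc y (fun γ => ?_) ?_
  · exact ((continuous_apply γ).comp he.continuous).continuousAt
  · intro U hU
    rw [he.nhds_eq_comap, Filter.mem_comap] at hU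
    obtain ⟨V, hV, hVU⟩ := hU
    rw [nhds_pi, Filter.mem_pi] at hV
    obtain ⟨I, hI, t, ht, hIt⟩ := hV
    have : ∀ γ, ∃ ε > 0, ∀ r : ℝ, |r - e y γ| < ε → r ∈ t γ := by
      intro γ
      obtain ⟨ε, hε, h⟩ := Metric.mem_nhds_iff.mp (ht γ)
      exact ⟨ε, hε, fun r hr => h (by simpa [Real.dist_eq] using hr)⟩
    choose ε hε h using this
    classical
    refine ⟨hI.toFinset, if hne : hI.toFinset.Nonempty then hI.toFinset.inf' hne ε else 1, ?_, ?_⟩
    · split_ifs with hne
      · rw [Finset.lt_inf'_iff]; exact fun γ _ => hε γ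
      · exact one_pos
    · intro z hz
      apply hVU
      apply hIt
      intro γ hγ
      have hγ' : γ ∈ hI.toFinset := hI.mem_toFinset.mpr hγ
      have hne : hI.toFinset.Nonempty := ⟨γ, hγ'⟩
      have := hz γ hγ'
      rw [dif_pos hne] at this
      exact h γ _ (this.trans_le (Finset.inf'_le _ hγ'))

/-- A space with a Corson embedding has countable tightness. -/
theorem CorsonEmb.tightAt {X : Type} [TopologicalSpace X] (h : CorsonEmb X) (y : X) :
    TightAt y := by
  obtain ⟨Γ, e, he, hc⟩ := h
  exact tightAt_of_inducing e he.isInducing hc y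

end Pool.Agent.PolT
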