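import Mathlib

/-!
# The index set `ω₁`
-/

open Set
open scoped Cardinal

namespace Pool.Agent.PolT

/-- the first uncountable ordinal, as a type -/
abbrev W : Type := (ℵ₁ : Cardinal.{0}).ord.ToType

theorem mk_W : #W = ℵ₁ := Cardinal.mk_ord_toType _

instance : Uncountable W := by
  rw [← Cardinal.aleph1_le_mk_iff, mk_W]

instance : Nonempty W := inferInstance

theorem countable_Iio (i : W) : (Iio i).Countable := by
  rw [Cardinal.countable_iff_lt_aleph_one]
  exact Cardinal.mk_Iio_toType_ord_lt i

theorem countable_Iic (i : W) : (Iic i).Countable := by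
  rw [← Iio_insert]
  exact (countable_Iio i).insert i

/-- countable subsets are strictly bounded -/
theorem exists_bound {S : Set W} (hS : S.Countable) : ∃ γ, ∀ i ∈ S, i < γ := by
  by_contra h
  push Not at h
  have : (univ : Set W) ⊆ ⋃ i ∈ S, Iic i := by
    intro γ _
    obtain ⟨i, hi, h⟩ := h γ
    exact mem_biUnion hi h
  have h2 : (univ : Set W).Countable := (hS.biUnion fun i _ => countable_Iic i).mono this
  exact not_countable (countable_univ_iff.mp h2)

theorem exists_bound_nat (f : ℕ → W) : ∃ γ, ∀ n, f n < γ := by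
  obtain ⟨γ, h⟩ := exists_bound (countable_range f)
  exact ⟨γ, fun n => h _ (mem_range_self n)⟩

/-- an antitone real function on `ω₁` is eventually constant -/
theorem eventually_const {s : W → ℝ} (hs : Antitone s) (hb : ∀ i, 0 ≤ s i) :
    ∃ i₀, ∀ i, i₀ ≤ i → s i = s i₀ := by
  have hbdd : BddBelow (range s) := ⟨0, by rintro _ ⟨i, rfl⟩; exact hb i⟩
  have : ∀ n : ℕ, ∃ i, s i < sInf (range s) + 1 / ((n : ℝ) + 1) := by
    intro n
    have h : sInf (range s) < sInf (range s) + 1 / ((n : ℝ) + 1) := by
      have : (0 : ℝ) < 1 / ((n : ℝ) + 1) := by positivity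
      linarith
    obtain ⟨_, ⟨i, rfl⟩, hi⟩ := exists_lt_of_csInf_lt (range_nonempty s) h
    exact ⟨i, hi⟩
  choose f hf using this
  obtain ⟨γ, hγ⟩ := exists_bound_nat f
  have key : ∀ i, γ ≤ i → s i = sInf (range s) := by
    intro i hi
    apply le_antisymm _ (csInf_le hbdd (mem_range_self i))
    apply le_of_forall_pos_lt_add
    intro ε hε
    obtain ⟨n, hn⟩ := exists_nat_one_div_lt hε
    have h1 := hs ((hγ n).le.trans hi)
    have h2 := hf n
    linarith
  exact ⟨γ, fun i hi => (key i hi).trans (key γ le_rfl).symm⟩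

end Pool.Agent.PolT
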