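import Mathlib
import Pool.Agent.PolT.Defs
import Pool.Agent.PolT.Index

/-!
# Coverings by `ℵ₁` null sets and point-countable families
-/

open MeasureTheory Set Filter
open scoped Cardinal Topology ENNReal

namespace Pool.Agent.PolT

/-- From a covering by null sets to a point-countable family of closed sets of measure at
least `1/2`. -/
theorem exists_family {T : Type} [TopologicalSpace T] [CompactSpace T] [T2Space T]
    [MeasurableSpace T] [BorelSpace T] (m : Measure T) [IsProbabilityMeasure m] [m.Regular]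
    (𝒩 : Set (Set T)) (h1 : #𝒩 ≤ ℵ₁) (h0 : ∀ N ∈ 𝒩, m N = 0) (hU : ⋃₀ 𝒩 = univ) :
    ∃ K : W → Set T, (∀ i, IsClosed (K i)) ∧ (∀ t, {i | t ∈ K i}.Countable) ∧
      ∀ i, 1 / 2 ≤ m.real (K i) := by
  have hT : Nonempty T := by
    by_contra h
    rw [not_nonempty_iff] at h
    have := measure_univ (μ := m)
    rw [univ_eq_empty_iff.mpr h] at this
    simp at this
  obtain ⟨t₀⟩ := hT
  have hne : 𝒩.Nonempty := by
    have : t₀ ∈ ⋃₀ 𝒩 := by rw [hU]; trivial
    obtain ⟨N, hN, _⟩ := this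
    exact ⟨N, hN⟩
  -- enumeration
  have hen : ∃ n : W → Set T, (∀ i, m (n i) = 0) ∧ ∀ t, ∃ i, t ∈ n i := by
    rw [← mk_W] at h1
    obtain ⟨g⟩ := h1
    have : Nonempty 𝒩 := hne.to_subtype
    refine ⟨fun i => (Function.invFun g i : 𝒩).1, fun i => h0 _ (Function.invFun g i).2, ?_⟩
    intro t
    have ht : t ∈ ⋃₀ 𝒩 := by rw [hU]; trivial
    obtain ⟨N, hN, htN⟩ := ht
    refine ⟨g ⟨N, hN⟩, ?_⟩
    show t ∈ (Function.invFun g (g ⟨N, hN⟩)).1
    rw [Function.leftInverse_invFun g.injective]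
    exact htN
  obtain ⟨n, hn0, hn⟩ := hen
  have hK : ∀ i, ∃ K : Set T, IsClosed K ∧ 1 / 2 ≤ m.real K ∧ ∀ j, j < i → Disjoint K (n j) := by
    intro i
    let M : Set T := ⋃ j ∈ Iio i, n j
    have hM : m M = 0 := (measure_biUnion_null_iff (countable_Iio i)).mpr fun j _ => hn0 j
    have hM' : m (toMeasurable m M)ᶜ = 1 := by
      rw [prob_compl_eq_one_iff (measurableSet_toMeasurable m M), measure_toMeasurable, hM]
    obtain ⟨K, hKs, hKc, hKm⟩ := (measurableSet_toMeasurable m M).compl.exists_lt_isCompact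
      (μ := m) (r := 1 / 2) (by rw [hM', one_div]; exact ENNReal.one_half_lt_one)
    refine ⟨K, hKc.isClosed, ?_, ?_⟩
    · have := ENNReal.toReal_mono (measure_ne_top m K) hKm.le
      simpa [Measure.real] using this
    · intro j hj
      rw [Set.disjoint_left]
      intro t ht htj
      exact hKs ht (subset_toMeasurable m M (mem_biUnion (mem_Iio.mpr hj) htj))
  choose K hKc hKm hKd using hK
  refine ⟨K, hKc, fun t => ?_, hKm⟩
  obtain ⟨γ, hγ⟩ := hn t
  refine (countable_Iic γ).mono ?_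
  intro i hi
  by_contra h
  exact Set.disjoint_left.mp (hKd i γ (not_le.mp h)) hi hγ

/-- From a point-countable family of sets of measure at least `δ` to a covering by null sets. -/
theorem nullCover_of_family {X : Type} [TopologicalSpace X] [CompactSpace X] [T2Space X]
    [MeasurableSpace X] [BorelSpace X] (μ : Measure X) [IsProbabilityMeasure μ] [μ.Regular]
    (V : W → Set X) (hV : ∀ i, MeasurableSet (V i)) (hpc : ∀ x, {i | x ∈ V i}.Countable)
    (δ : ℝ) (hδ : 0 < δ) (hm : ∀ i, δ ≤ μ.real (V i)) : NullCover := by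
  classical
  let R : W → Set ℝ := fun β => {r | ∃ D : Set W, D.Countable ∧ (∀ i ∈ D, β ≤ i) ∧
    r = μ.real (⋃ i ∈ D, V i)}
  have hRb : ∀ β, BddAbove (R β) := by
    intro β
    refine ⟨1, ?_⟩
    rintro r ⟨D, _, _, rfl⟩
    exact measureReal_le_one
  have hRne : ∀ β, (R β).Nonempty := fun β => ⟨_, ∅, countable_empty, by simp, rfl⟩
  let s : W → ℝ := fun β => sSup (R β)
  have hs0 : ∀ β, 0 ≤ s β := by
    intro β
    refine le_csSup_of_le (hRb β) ⟨∅, countable_empty, by simp, rfl⟩ measureReal_nonneg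
  have hanti : Antitone s := by
    intro β β' h
    refine csSup_le_csSup (hRb β) (hRne β') ?_
    rintro r ⟨D, hD, hDb, rfl⟩
    exact ⟨D, hD, fun i hi => h.trans (hDb i hi), rfl⟩
  -- the supremum is attained
  have hatt : ∀ β, ∃ D : Set W, D.Countable ∧ (∀ i ∈ D, β ≤ i) ∧ μ.real (⋃ i ∈ D, V i) = s β := by
    intro β
    have : ∀ n : ℕ, ∃ D : Set W, D.Countable ∧ (∀ i ∈ D, β ≤ i) ∧
        s β - 1 / ((n : ℝ) + 1) < μ.real (⋃ i ∈ D, V i) := by
      intro n
      have hlt : s β - 1 / ((n : ℝ) + 1) < s β := by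
        have : (0 : ℝ) < 1 / ((n : ℝ) + 1) := by positivity
        linarith
      obtain ⟨r, ⟨D, hD, hDb, rfl⟩, hr⟩ := exists_lt_of_lt_csSup (hRne β) hlt
      exact ⟨D, hD, hDb, hr⟩
    choose D hD hDb hDm using this
    have hDU : (⋃ n, D n).Countable := countable_iUnion hD
    have hDUb : ∀ i ∈ ⋃ n, D n, β ≤ i := by
      intro i hi
      obtain ⟨n, hn⟩ := mem_iUnion.mp hi
      exact hDb n i hn
    refine ⟨⋃ n, D n, hDU, hDUb, le_antisymm (le_csSup (hRb β) ⟨_, hDU, hDUb, rfl⟩) ?_⟩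
    apply le_of_forall_pos_le_add
    intro ε hε
    obtain ⟨n, hn⟩ := exists_nat_one_div_lt hε
    have h1 := hDm n
    have h2 : μ.real (⋃ i ∈ D n, V i) ≤ μ.real (⋃ i ∈ ⋃ n, D n, V i) := by
      apply measureReal_mono _ (measure_ne_top _ _)
      exact biUnion_subset_biUnion_left (subset_iUnion D n)
    linarith
  choose D hD hDb hDm using hatt
  obtain ⟨i₀, hi₀⟩ := eventually_const hanti hs0
  let C : W → Set X := fun β => ⋃ i ∈ D β, V i
  have hCm : ∀ β, MeasurableSet (C β) := fun β => MeasurableSet.biUnion (hD β) fun i _ => hV i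
  have hnull : ∀ β, i₀ ≤ β → μ (C i₀ \ C β) = 0 := by
    intro β hβ
    have h1 : μ.real (⋃ i ∈ D i₀ ∪ D β, V i) ≤ s i₀ := by
      refine le_csSup (hRb i₀) ⟨D i₀ ∪ D β, (hD i₀).union (hD β), ?_, rfl⟩
      rintro i (hi | hi)
      · exact hDb i₀ i hi
      · exact hβ.trans (hDb β i hi)
    have h2 : (⋃ i ∈ D i₀ ∪ D β, V i) = C i₀ ∪ C β := biUnion_union _ _ _
    rw [h2, ← hi₀ β hβ, ← hDm β] at h1
    have h3 : μ.real (C i₀ \ C β) + μ.real (C β) = μ.real (C i₀ ∪ C β) := by
      rw [← Set.sdiff_union_self,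
        measureReal_union disjoint_sdiff_left (hCm β) (measure_ne_top _ _) (measure_ne_top _ _)]
    have h4 : μ.real (C i₀ \ C β) = 0 := by
      have := measureReal_nonneg (μ := μ) (s := C i₀ \ C β)
      have h5 : μ.real (⋃ i ∈ D β, V i) = μ.real (C β) := rfl
      linarith
    rwa [measureReal_eq_zero_iff (measure_ne_top _ _)] at h4
  have hpos : δ ≤ μ.real (C i₀) := by
    have : μ.real (V i₀) ≤ s i₀ := by
      refine le_csSup (hRb i₀) ⟨{i₀}, countable_singleton _, by simp, ?_⟩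
      simp
    calc δ ≤ μ.real (V i₀) := hm i₀
      _ ≤ s i₀ := this
      _ = μ.real (C i₀) := (hDm i₀).symm
  have hC0 : μ (C i₀) ≠ 0 := by
    intro h
    have : μ.real (C i₀) = 0 := by rw [Measure.real, h]; rfl
    linarith
  refine ⟨X, inferInstance, inferInstance, inferInstance, inferInstance, inferInstance,
    (μ (C i₀))⁻¹ • μ.restrict (C i₀), ?_, ?_,
    insert (C i₀)ᶜ (range fun β => C i₀ \ C (max i₀ β)), ?_, ?_, ?_⟩
  · constructor
    rw [Measure.smul_apply, Measure.restrict_apply_univ, smul_eq_mul,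
      ENNReal.inv_mul_cancel hC0 (measure_ne_top _ _)]
  · have : (μ.restrict (C i₀)).Regular :=
      Measure.Regular.restrict_of_measure_ne_top (measure_ne_top _ _)
    exact Measure.Regular.smul (ENNReal.inv_ne_top.mpr hC0)
  · have h1 : #(range fun β : W => C i₀ \ C (max i₀ β)) ≤ ℵ₁ := by
      refine Cardinal.mk_range_le.trans ?_
      rw [mk_W]
    refine (Cardinal.mk_insert_le).trans ?_
    refine (add_le_add_left h1 1).trans ?_
    exact (Cardinal.add_one_eq (Cardinal.aleph0_le_aleph 1)).le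
  · rintro N (rfl | ⟨β, rfl⟩)
    · rw [Measure.smul_apply, Measure.restrict_apply (hCm i₀).compl]
      simp
    · rw [Measure.smul_apply, smul_eq_mul]
      have : (μ.restrict (C i₀)) (C i₀ \ C (max i₀ β)) = 0 :=
        le_antisymm ((Measure.restrict_apply_le _ _).trans (hnull _ (le_max_left _ _)).le)
          zero_le
      rw [this, mul_zero]
  · rw [eq_univ_iff_forall]
    intro x
    by_cases hx : x ∈ C i₀
    · obtain ⟨γ, hγ⟩ := exists_bound (hpc x)
      refine ⟨C i₀ \ C (max i₀ γ), mem_insert_of_mem _ (mem_range_self γ), hx, ?_⟩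
      intro h
      obtain ⟨i, hi, hxi⟩ := mem_iUnion₂.mp h
      have h1 := hDb _ i hi
      have h2 := hγ i hxi
      exact absurd ((le_max_right i₀ γ).trans h1) (not_le.mpr h2)
    · exact ⟨(C i₀)ᶜ, mem_insert _ _, hx⟩

end Pool.Agent.PolT
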