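import Mathlib
import Pool.Agent.PolT.Defs
import Pool.Agent.PolT.Index

/-!
# The compact space of a point-countable family of closed sets, and its measures
-/

open MeasureTheory Set Filter
open scoped Cardinal Topology CompactlySupported

namespace Pool.Agent.PolT

section

variable {T : Type} [TopologicalSpace T] [CompactSpace T] (K : W → Set T)

/-- The set of all `a ⊆ ω₁` (as indicator functions) such that the sets `K i`, `i ∈ a`, have a
common point. -/
def XS : Set (W → Bool) := {a | ∃ t, ∀ i, a i = true → t ∈ K i}

theorem isClosed_XS (hK : ∀ i, IsClosed (K i)) : IsClosed (XS K) := by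
  rw [← isOpen_compl_iff, isOpen_iff_mem_nhds]
  intro a ha
  have h0 : (univ : Set T) ∩ ⋂ j : {i // a i = true}, K j.1 = ∅ := by
    rw [univ_inter, eq_empty_iff_forall_notMem]
    intro t ht
    exact ha ⟨t, fun i hi => mem_iInter.mp ht ⟨i, hi⟩⟩
  obtain ⟨u, hu⟩ := isCompact_univ.elim_finite_subfamily_closed
    (fun j : {i // a i = true} => K j.1) (fun j => hK j.1) h0
  have hopen : IsOpen (⋂ j ∈ u, {b : W → Bool | b j.1 = true}) := by
    apply isOpen_biInter_finset
    intro j _
    have hj : Continuous fun b : W → Bool => b j.1 := continuous_apply j.1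
    exact (isOpen_discrete ({true} : Set Bool)).preimage hj
  refine mem_of_superset (hopen.mem_nhds ?_) ?_
  · exact mem_iInter₂.mpr fun j _ => j.2
  · rintro b hb ⟨t, ht⟩
    have h1 : t ∈ (univ : Set T) ∩ ⋂ j ∈ u, K j.1 :=
      ⟨mem_univ _, mem_iInter₂.mpr fun j hj => ht _ (mem_iInter₂.mp hb j hj)⟩
    rw [hu] at h1
    exact h1

theorem countable_of_mem_XS (hpc : ∀ t, {i | t ∈ K i}.Countable) {a : W → Bool} (ha : a ∈ XS K) :
    {i | a i = true}.Countable := by
  obtain ⟨t, ht⟩ := ha
  exact (hpc t).mono fun i hi => ht i hi

open Classical in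
/-- the point `{i ≥ β | t ∈ K i}` of the space -/
noncomputable def cpt (β : W) (t : T) : XS K :=
  ⟨fun i => decide (β ≤ i ∧ t ∈ K i), t, fun i hi => (of_decide_eq_true hi).2⟩

/-- the point `∅` of the space -/
def zeroPt (t : T) : XS K := ⟨fun _ => false, t, fun i hi => by simp at hi⟩

/-- coordinate functions -/
noncomputable def coord (i : W) : C(XS K, ℝ) :=
  ⟨fun a => if a.1 i = true then 1 else 0, by
    have h1 : Continuous fun b : Bool => if b = true then (1 : ℝ) else 0 := continuous_of_discreteTopology
    exact h1.comp ((continuous_apply i).comp continuous_subtype_val)⟩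

theorem coord_apply (i : W) (a : XS K) : coord K i a = if a.1 i = true then 1 else 0 := rfl

/-- `CorsonEmb` for the space -/
theorem corsonEmb_XS (hK : ∀ i, IsClosed (K i)) (hpc : ∀ t, {i | t ∈ K i}.Countable) :
    CorsonEmb (XS K) := by
  have : CompactSpace (XS K) := isCompact_iff_compactSpace.mp (isClosed_XS K hK).isCompact
  refine ⟨W, fun a i => coord K i a, ?_, ?_⟩
  · have hc : Continuous fun (a : XS K) (i : W) => coord K i a :=
      continuous_pi fun i => (coord K i).continuous
    refine (hc.isClosedEmbedding ?_).isEmbedding
    intro a b hab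
    apply Subtype.ext
    funext i
    have := congrFun hab i
    simp only [coord_apply] at this
    by_cases h1 : a.1 i = true <;> by_cases h2 : b.1 i = true <;> simp_all
  · intro a
    refine (countable_of_mem_XS K hpc a.2).mono ?_
    intro i hi
    by_contra h
    apply hi
    exact if_neg h

variable [MeasurableSpace T] [BorelSpace T]

theorem measurable_comp (hK : ∀ i, IsClosed (K i)) (f : C(XS K, ℝ)) (β : W) :
    Measurable fun t => f (cpt K β t) := by
  classical
  have : CompactSpace (XS K) := isCompact_iff_compactSpace.mp (isClosed_XS K hK).isCompact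
  let A : Subalgebra ℝ C(XS K, ℝ) :=
    { carrier := {f | Measurable fun t => f (cpt K β t)}
      mul_mem' := fun {f g} hf hg => by
        show Measurable fun t => (f * g) (cpt K β t)
        exact Measurable.mul hf hg
      add_mem' := fun {f g} hf hg => by
        show Measurable fun t => (f + g) (cpt K β t)
        exact Measurable.add hf hg
      algebraMap_mem' := fun r => by
        show Measurable fun t => (algebraMap ℝ C(XS K, ℝ) r) (cpt K β t)
        exact measurable_const }
  have hcoord : ∀ i, coord K i ∈ A := by
    intro i
    show Measurable fun t => coord K i (cpt K β t)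
    have : (fun t => coord K i (cpt K β t)) = fun t => if (β ≤ i ∧ t ∈ K i) then (1 : ℝ) else 0 := by
      funext t
      rw [coord_apply]
      simp [cpt]
    rw [this]
    refine Measurable.ite ?_ measurable_const measurable_const
    by_cases h : β ≤ i
    · simp only [h, true_and]
      exact (hK i).measurableSet
    · simp [h]
  have hsep : A.SeparatesPoints := by
    intro a b hab
    have : ∃ i, a.1 i ≠ b.1 i := by
      by_contra h
      push Not at h
      exact hab (Subtype.ext (funext h))
    obtain ⟨i, hi⟩ := this
    refine ⟨coord K i, ⟨coord K i, hcoord i, rfl⟩, ?_⟩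
    simp only [coord_apply]
    by_cases h1 : a.1 i = true <;> by_cases h2 : b.1 i = true <;> simp_all
  have htop := ContinuousMap.subalgebra_topologicalClosure_eq_top_of_separatesPoints A hsep
  have hf : f ∈ closure (A : Set C(XS K, ℝ)) := by
    have : f ∈ A.topologicalClosure := by rw [htop]; exact Algebra.mem_top
    exact this
  obtain ⟨g, hg, hlim⟩ := mem_closure_iff_seq_limit.mp hf
  refine measurable_of_tendsto_metrizable (f := fun n t => g n (cpt K β t)) (fun n => hg n) ?_
  rw [tendsto_pi_nhds]
  intro t
  exact ((continuous_eval_const (F := C(XS K, ℝ)) (cpt K β t)).tendsto f).comp hlim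

end

end Pool.Agent.PolT
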