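import Mathlib
import Pool.Agent.PolT.Space

/-!
# The measures on the compact space, and failure of countable tightness at a Dirac measure
-/

open MeasureTheory Set Filter
open scoped Cardinal Topology CompactlySupported BoundedContinuousFunction

namespace Pool.Agent.PolT

section

variable {T : Type} [TopologicalSpace T] [CompactSpace T] [MeasurableSpace T] [BorelSpace T]
  (K : W → Set T) (m : Measure T) [IsProbabilityMeasure m]

theorem integrable_comp (hK : ∀ i, IsClosed (K i)) (f : C(XS K, ℝ)) (β : W) :
    Integrable (fun t => f (cpt K β t)) m := by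
  have : CompactSpace (XS K) := isCompact_iff_compactSpace.mp (isClosed_XS K hK).isCompact
  refine Integrable.of_bound (measurable_comp K hK f β).aestronglyMeasurable ‖f‖ ?_
  exact ae_of_all _ fun t => f.norm_coe_le_norm _

/-- the positive functional `f ↦ ∫ f({i ≥ β | t ∈ K i}) dm(t)` -/
noncomputable def Lfun (hK : ∀ i, IsClosed (K i)) (β : W) : C_c(XS K, ℝ) →ₚ[ℝ] ℝ where
  toFun f := ∫ t, f (cpt K β t) ∂m
  map_add' f g := integral_add (integrable_comp K m hK f.toContinuousMap β)
    (integrable_comp K m hK g.toContinuousMap β)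
  map_smul' c f := integral_const_mul c _
  monotone' f g h := integral_mono (integrable_comp K m hK f.toContinuousMap β)
    (integrable_comp K m hK g.toContinuousMap β) (fun t => h _)

variable [MeasurableSpace (XS K)] [BorelSpace (XS K)]

/-- the measure `μ_β` on the space -/
theorem exists_measures (hK : ∀ i, IsClosed (K i)) : ∃ μ : W → P (XS K),
    ∀ (β : W) (f : C(XS K, ℝ)), ∫ x, f x ∂((μ β).1 : Measure (XS K)) =
      ∫ t, f (cpt K β t) ∂m := by
  have hc : CompactSpace (XS K) := isCompact_iff_compactSpace.mp (isClosed_XS K hK).isCompact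
  have hint : ∀ (β : W) (f : C(XS K, ℝ)), ∫ x, f x ∂(RealRMK.rieszMeasure (Lfun K m hK β)) =
      ∫ t, f (cpt K β t) ∂m := by
    intro β f
    exact RealRMK.integral_rieszMeasure (Lfun K m hK β)
      ⟨f, HasCompactSupport.of_compactSpace _⟩
  have hprob : ∀ β, IsProbabilityMeasure (RealRMK.rieszMeasure (Lfun K m hK β)) := by
    intro β
    have h1 := hint β 1
    simp only [ContinuousMap.one_apply, integral_const, smul_eq_mul, mul_one,
      probReal_univ] at h1
    rw [Measure.real] at h1
    constructor
    rw [← ENNReal.toReal_eq_one_iff]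
    exact h1
  exact ⟨fun β => ⟨⟨RealRMK.rieszMeasure (Lfun K m hK β), hprob β⟩,
    by show (RealRMK.rieszMeasure (Lfun K m hK β)).Regular; infer_instance⟩,
    fun β f => hint β f⟩

theorem not_tightAt (hK : ∀ i, IsClosed (K i)) (hm : ∀ i, 1 / 2 ≤ m.real (K i)) (t₀ : T) :
    ¬ TightAt (dirac (zeroPt K t₀)) := by
  classical
  have hc : CompactSpace (XS K) := isCompact_iff_compactSpace.mp (isClosed_XS K hK).isCompact
  obtain ⟨μ, hμ⟩ := exists_measures K m hK
  set x₀ := zeroPt K t₀ with hx₀
  intro htight
  -- convergence to the Dirac measure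
  have hlim : Tendsto μ atTop (𝓝 (dirac x₀)) := by
    refine tendsto_subtype_rng.mpr ?_
    rw [ProbabilityMeasure.tendsto_iff_forall_integral_tendsto]
    intro f
    have hd : ∫ x, f x ∂((dirac x₀).1 : Measure (XS K)) = f x₀ := by
      show ∫ x, f x ∂(Measure.dirac x₀) = f x₀
      exact integral_dirac _ _
    rw [hd, Metric.tendsto_atTop]
    intro ε hε
    have hU : {a : XS K | dist (f a) (f x₀) < ε / 2} ∈ 𝓝 x₀ :=
      (f.continuous.tendsto x₀) (Metric.ball_mem_nhds _ (half_pos hε))
    rw [nhds_subtype_eq_comap, mem_comap] at hU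
    obtain ⟨V, hV, hVU⟩ := hU
    rw [nhds_pi, Filter.mem_pi] at hV
    obtain ⟨I, hI, s, hs, hIs⟩ := hV
    obtain ⟨γ, hγ⟩ := exists_bound hI.countable
    refine ⟨γ, fun β hβ => ?_⟩
    have hcl : ∀ t, dist (f (cpt K β t)) (f x₀) < ε / 2 := by
      intro t
      apply hVU
      apply hIs
      intro i hi
      have : (cpt K β t).1 i = x₀.1 i := by
        show decide (β ≤ i ∧ t ∈ K i) = false
        rw [decide_eq_false_iff_not]
        intro h
        exact absurd (hγ i hi) (not_lt.mpr (hβ.trans h.1))
      rw [this]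
      exact mem_of_mem_nhds (hs i)
    have h1 := hμ β f.toContinuousMap
    have h2 : ∫ x, f x ∂((μ β).1 : Measure (XS K)) = ∫ t, f (cpt K β t) ∂m := h1
    rw [h2, dist_eq_norm]
    have hi : Integrable (fun t => f (cpt K β t)) m :=
      integrable_comp K m hK f.toContinuousMap β
    have h3 : ∫ t, f (cpt K β t) ∂m - f x₀ = ∫ t, (f (cpt K β t) - f x₀) ∂m := by
      rw [integral_sub hi (integrable_const _)]
      simp
    rw [h3]
    have h4 : ‖∫ t, (f (cpt K β t) - f x₀) ∂m‖ ≤ ε / 2 * m.real univ := by
      apply norm_integral_le_of_norm_le_const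
      exact ae_of_all _ fun t => by
        rw [← dist_eq_norm]; exact (hcl t).le
    rw [probReal_univ, mul_one] at h4
    linarith
  have hcl : dirac x₀ ∈ closure (range μ) :=
    mem_closure_of_tendsto hlim (Eventually.of_forall fun β => mem_range_self β)
  obtain ⟨B, hB, hBc, hBx⟩ := htight _ hcl
  -- a bound for the indices
  have : ∀ b : B, ∃ β, μ β = b.1 := fun b => hB b.2
  choose idx hidx using this
  have hBc' : Countable B := hBc.to_subtype
  obtain ⟨γ, hγ⟩ := exists_bound (countable_range idx)
  have hcont : Continuous fun ν : P (XS K) => ∫ x, coord K γ x ∂(ν.1 : Measure (XS K)) :=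
    (ProbabilityMeasure.continuous_integral_continuousMap (coord K γ)).comp
      continuous_subtype_val
  have hclosed : IsClosed {ν : P (XS K) | 1 / 2 ≤ ∫ x, coord K γ x ∂(ν.1 : Measure (XS K))} :=
    isClosed_le continuous_const hcont
  have hsub : B ⊆ {ν : P (XS K) | 1 / 2 ≤ ∫ x, coord K γ x ∂(ν.1 : Measure (XS K))} := by
    intro b hb
    have h1 : μ (idx ⟨b, hb⟩) = b := hidx ⟨b, hb⟩
    have h2 := hγ _ (mem_range_self ⟨b, hb⟩)
    rw [← h1, mem_ofPred_eq, hμ]
    have h3 : (fun t => coord K γ (cpt K (idx ⟨b, hb⟩) t)) = (K γ).indicator 1 := by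
      funext t
      rw [coord_apply]
      simp only [cpt, decide_eq_true_eq, h2.le, true_and, indicator_apply, Pi.one_apply]
    rw [h3, integral_indicator_one (hK γ).measurableSet]
    exact hm γ
  have := hclosed.closure_subset_iff.mpr hsub hBx
  have h5 : ∫ x, coord K γ x ∂((dirac x₀).1 : Measure (XS K)) = coord K γ x₀ := by
    show ∫ x, coord K γ x ∂(Measure.dirac x₀) = coord K γ x₀
    exact integral_dirac _ _
  rw [mem_ofPred_eq, h5, coord_apply] at this
  simp [hx₀, zeroPt] at this
  linarith

end

end Pool.Agent.PolT
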