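import Mathlib
import Pool.Agent.PolT.Cover

/-!
# Countable tightness of `P(X)` for Corson compacta when there is no covering by `ℵ₁` null sets
-/

open MeasureTheory Set Filter
open scoped Cardinal Topology ENNReal BoundedContinuousFunction

namespace Pool.Agent.PolT

section

variable {X : Type} [TopologicalSpace X] [CompactSpace X] [T2Space X]
  [MeasurableSpace X] [BorelSpace X] {Γ : Type} (e : X → Γ → ℝ)

/-- without a covering by null sets, a regular measure gives positive measure only to countably
many of the sets `{x | e x γ ≠ 0}` -/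
theorem countable_support (hnc : ¬ NullCover) (he : Continuous e)
    (hc : ∀ x, {γ | e x γ ≠ 0}.Countable) (μ : Measure X) [IsProbabilityMeasure μ] [μ.Regular] :
    {γ | μ {x | e x γ ≠ 0} ≠ 0}.Countable := by
  by_contra hcount
  have heγ : ∀ γ, Continuous fun x => e x γ := fun γ => (continuous_apply γ).comp he
  let V : ℕ → Γ → Set X := fun n γ => {x | 1 / ((n : ℝ) + 1) ≤ |e x γ|}
  have hVc : ∀ n γ, IsClosed (V n γ) := fun n γ => isClosed_le continuous_const (heγ γ).abs
  let G : ℕ → ℕ → Set Γ := fun n k => {γ | 1 / ((k : ℝ) + 1) ≤ μ.real (V n γ)}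
  have hsub : {γ | μ {x | e x γ ≠ 0} ≠ 0} ⊆ ⋃ n, ⋃ k, G n k := by
    intro γ hγ
    have h1 : {x | e x γ ≠ 0} ⊆ ⋃ n, V n γ := by
      intro x hx
      obtain ⟨n, hn⟩ := exists_nat_one_div_lt (abs_pos.mpr hx)
      exact mem_iUnion.mpr ⟨n, hn.le⟩
    have h2 : ∃ n, μ (V n γ) ≠ 0 := by
      by_contra h
      push Not at h
      exact hγ (measure_mono_null h1 (measure_iUnion_null h))
    obtain ⟨n, hn⟩ := h2
    have h3 : 0 < μ.real (V n γ) := by
      rw [Measure.real]
      exact ENNReal.toReal_pos hn (measure_ne_top _ _)
    obtain ⟨k, hk⟩ := exists_nat_one_div_lt h3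
    exact mem_iUnion.mpr ⟨n, mem_iUnion.mpr ⟨k, hk.le⟩⟩
  have hex : ∃ n k, ¬ (G n k).Countable := by
    by_contra h
    push Not at h
    exact hcount ((countable_iUnion fun n => countable_iUnion fun k => h n k).mono hsub)
  obtain ⟨n, k, hG⟩ := hex
  have hGW : #W ≤ #(G n k) := by
    have : Uncountable (G n k) := by
      rw [← not_countable_iff]
      exact fun h => hG (Set.countable_coe_iff.mp h)
    rw [mk_W]
    exact Cardinal.aleph_one_le_iff.mpr (Cardinal.aleph0_lt_mk_iff.mpr this)
  obtain ⟨g⟩ := hGW
  refine hnc (nullCover_of_family μ (fun i => V n (g i).1) (fun i => (hVc n _).measurableSet)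
    (fun x => ?_) (1 / ((k : ℝ) + 1)) (by positivity) (fun i => (g i).2))
  have hinj : Function.Injective fun i : W => (g i).1 :=
    Subtype.val_injective.comp g.injective
  refine ((hc x).preimage hinj).mono ?_
  intro i hi
  have h1 : 1 / ((n : ℝ) + 1) ≤ |e x (g i).1| := hi
  have h2 : (0 : ℝ) < 1 / ((n : ℝ) + 1) := by positivity
  exact abs_pos.mp (h2.trans_le h1)

/-- the coordinate functions -/
def cmap (he : Continuous e) (γ : Γ) : C(X, ℝ) :=
  ⟨fun x => e x γ, (continuous_apply γ).comp he⟩

/-- monomials in the coordinates -/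
def mono (he : Continuous e) (L : List Γ) : C(X, ℝ) := (L.map (cmap e he)).prod

/-- the moments of a measure -/
noncomputable def moments (he : Continuous e) (ν : P X) (L : List Γ) : ℝ :=
  ∫ x, mono e he L x ∂(ν.1 : Measure X)

theorem mono_apply (he : Continuous e) (L : List Γ) (x : X) :
    mono e he L x = (L.map (fun γ => e x γ)).prod := by
  induction L with
  | nil => simp [mono]
  | cons a L ih =>
    rw [mono, List.map_cons, List.prod_cons, ContinuousMap.mul_apply, List.map_cons,
      List.prod_cons, ← ih]
    rfl

theorem countable_moments (hnc : ¬ NullCover) (he : Continuous e)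
    (hc : ∀ x, {γ | e x γ ≠ 0}.Countable) (ν : P X) : {L | moments e he ν L ≠ 0}.Countable := by
  have : (ν.1 : Measure X).Regular := ν.2
  have h1 := countable_support e hnc he hc (ν.1 : Measure X)
  have hcs : Countable {γ | (ν.1 : Measure X) {x | e x γ ≠ 0} ≠ 0} := h1.to_subtype
  refine (countable_range (List.map (Subtype.val :
    {γ | (ν.1 : Measure X) {x | e x γ ≠ 0} ≠ 0} → Γ))).mono ?_
  intro L hL
  rw [Set.range_list_map_coe]
  intro γ hγ
  by_contra h
  apply hL
  have h0 : (ν.1 : Measure X) {x | e x γ ≠ 0} = 0 := by
    by_contra h'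
    exact h h'
  have h2 : (fun x => mono e he L x) =ᵐ[(ν.1 : Measure X)] fun _ => (0 : ℝ) := by
    have h3 : ∀ᵐ x ∂(ν.1 : Measure X), e x γ = 0 := h0
    filter_upwards [h3] with x hx
    rw [mono_apply]
    apply List.prod_eq_zero
    rw [List.mem_map]
    exact ⟨γ, hγ, hx⟩
  rw [moments, integral_congr_ae h2]
  simp

theorem continuous_moments (he : Continuous e) : Continuous (moments (X := X) e he) := by
  refine continuous_pi fun L => ?_
  exact (ProbabilityMeasure.continuous_integral_continuousMap (mono e he L)).comp
    continuous_subtype_val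

/-- the moments determine the topology of `P(X)` -/
theorem isInducing_moments (he : Topology.IsEmbedding e) :
    Topology.IsInducing (moments (X := X) e he.continuous) := by
  rw [Topology.isInducing_iff_nhds]
  intro ν
  apply le_antisymm
  · exact (continuous_moments e he.continuous).tendsto ν |>.le_comap
  · set F := comap (moments (X := X) e he.continuous) (𝓝 (moments e he.continuous ν)) with hF
    have hmom : ∀ L, Tendsto (fun σ : P X => moments e he.continuous σ L) F
        (𝓝 (moments e he.continuous ν L)) := by
      intro L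
      have hcL : Continuous fun g : List Γ → ℝ => g L := continuous_apply L
      exact (hcL.tendsto (moments e he.continuous ν)).comp tendsto_comap
    let M : Submodule ℝ C(X, ℝ) :=
      { carrier := {f | Tendsto (fun σ : P X => ∫ x, f x ∂(σ.1 : Measure X)) F
          (𝓝 (∫ x, f x ∂(ν.1 : Measure X)))}
        add_mem' := fun {f g} hf hg => by
          have h1 : ∀ σ : P X, ∫ x, (f + g) x ∂(σ.1 : Measure X) =
              ∫ x, f x ∂(σ.1 : Measure X) + ∫ x, g x ∂(σ.1 : Measure X) := by
            intro σ
            exact integral_add (f.continuous.integrable_of_hasCompactSupport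
              (HasCompactSupport.of_compactSpace _)) (g.continuous.integrable_of_hasCompactSupport
              (HasCompactSupport.of_compactSpace _))
          show Tendsto (fun σ : P X => ∫ x, (f + g) x ∂(σ.1 : Measure X)) F
            (𝓝 (∫ x, (f + g) x ∂(ν.1 : Measure X)))
          simp_rw [h1]
          exact Tendsto.add hf hg
        zero_mem' := by
          show Tendsto (fun σ : P X => ∫ x, (0 : C(X, ℝ)) x ∂(σ.1 : Measure X)) F
            (𝓝 (∫ x, (0 : C(X, ℝ)) x ∂(ν.1 : Measure X)))
          simpa using tendsto_const_nhds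
        smul_mem' := fun c f hf => by
          show Tendsto (fun σ : P X => ∫ x, (c • f) x ∂(σ.1 : Measure X)) F
            (𝓝 (∫ x, (c • f) x ∂(ν.1 : Measure X)))
          simp only [ContinuousMap.smul_apply, integral_smul]
          exact Tendsto.const_smul hf c }
    have hadj : Subalgebra.toSubmodule (Algebra.adjoin ℝ (range (cmap e he.continuous))) ≤ M := by
      rw [Algebra.adjoin_eq_span, Submodule.span_le]
      intro f hf
      obtain ⟨l, hl, rfl⟩ := Submonoid.exists_list_of_mem_closure hf
      have : ∃ L : List Γ, l = L.map (cmap e he.continuous) := by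
        have h1 : l ∈ range (List.map (cmap e he.continuous)) := by
          rw [Set.range_list_map]
          exact hl
        obtain ⟨L, hL⟩ := h1
        exact ⟨L, hL.symm⟩
      obtain ⟨L, rfl⟩ := this
      exact hmom L
    have hsep : (Algebra.adjoin ℝ (range (cmap e he.continuous))).SeparatesPoints := by
      intro x y hxy
      have : ∃ γ, e x γ ≠ e y γ := by
        by_contra h
        push Not at h
        exact hxy (he.injective (funext h))
      obtain ⟨γ, hγ⟩ := this
      exact ⟨cmap e he.continuous γ, ⟨cmap e he.continuous γ,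
        Algebra.subset_adjoin (mem_range_self γ), rfl⟩, hγ⟩
    have htop := ContinuousMap.subalgebra_topologicalClosure_eq_top_of_separatesPoints _ hsep
    have hall : ∀ f : C(X, ℝ), Tendsto (fun σ : P X => ∫ x, f x ∂(σ.1 : Measure X)) F
        (𝓝 (∫ x, f x ∂(ν.1 : Measure X))) := by
      intro f
      have hf : f ∈ closure ((Algebra.adjoin ℝ (range (cmap e he.continuous)) :
          Subalgebra ℝ C(X, ℝ)) : Set C(X, ℝ)) := by
        have : f ∈ (Algebra.adjoin ℝ (range (cmap e he.continuous))).topologicalClosure := by
          rw [htop]; exact Algebra.mem_top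
        exact this
      rw [Metric.tendsto_nhds]
      intro ε hε
      obtain ⟨g, hg, hfg⟩ := Metric.mem_closure_iff.mp hf (ε / 3) (by positivity)
      have hgM : Tendsto (fun σ : P X => ∫ x, g x ∂(σ.1 : Measure X)) F
        (𝓝 (∫ x, g x ∂(ν.1 : Measure X))) := hadj hg
      have hclose : ∀ σ : P X, |∫ x, f x ∂(σ.1 : Measure X) - ∫ x, g x ∂(σ.1 : Measure X)| ≤
          ε / 3 := by
        intro σ
        have hif : Integrable (fun x => f x) (σ.1 : Measure X) :=
          f.continuous.integrable_of_hasCompactSupport (HasCompactSupport.of_compactSpace _)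
        have hig : Integrable (fun x => g x) (σ.1 : Measure X) :=
          g.continuous.integrable_of_hasCompactSupport (HasCompactSupport.of_compactSpace _)
        rw [← integral_sub hif hig, ← Real.norm_eq_abs]
        have h4 : ‖∫ x, (f x - g x) ∂(σ.1 : Measure X)‖ ≤ ε / 3 * (σ.1 : Measure X).real univ := by
          apply norm_integral_le_of_norm_le_const
          refine ae_of_all _ fun x => ?_
          have h5 := (f - g).norm_coe_le_norm x
          rw [dist_eq_norm] at hfg
          exact (h5.trans hfg.le)
        rwa [probReal_univ, mul_one] at h4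
      rw [Metric.tendsto_nhds] at hgM
      filter_upwards [hgM (ε / 3) (by positivity)] with σ hσ
      rw [Real.dist_eq] at hσ ⊢
      have h1 := hclose σ
      have h2 := hclose ν
      rw [abs_le] at h1 h2
      rw [abs_lt] at hσ ⊢
      constructor <;> linarith
    have hid : Tendsto (fun σ : P X => σ) F (𝓝 ν) := by
      refine tendsto_subtype_rng.mpr ?_
      rw [ProbabilityMeasure.tendsto_iff_forall_integral_tendsto]
      intro f
      exact hall f.toContinuousMap
    exact hid

/-- Without a covering by `ℵ₁` null sets, `P(X)` has countable tightness for each Corson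
compactum `X`. -/
theorem tightAt_P (hnc : ¬ NullCover) (hX : CorsonEmb X) (ν : P X) : TightAt ν := by
  obtain ⟨Γ, e, he, hc⟩ := hX
  exact tightAt_of_inducing _ (isInducing_moments e he)
    (fun σ => countable_moments e hnc he.continuous hc σ) ν

end

end Pool.Agent.PolT
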